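import Mathlib
import Pool.Prelude.Def_F_97ce6499

/-!
Structure modulo 3 of infinite orbits of the greedy prime sequence of Ulam.
-/

set_option autoImplicit false

namespace Pool.Agent.UlamPrimes

open Ndec75080

/-- A strictly increasing sequence of primes cannot have bounded gaps from some index on. -/
theorem not_bounded_gaps (q : ℕ → ℕ) (hq : StrictMono q) (hp : ∀ k, (q k).Prime) (k0 D : ℕ)
    (hb : ∀ j, k0 ≤ j → q (j + 1) ≤ q j + D) : False := by
  -- the block `N! + 2, ..., N! + N` holds no prime
  set N := q k0 + D + 2 with hN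
  have hNf : N ≤ N.factorial := Nat.self_le_factorial N
  have hcomp : ∀ x, N.factorial + 2 ≤ x → x ≤ N.factorial + N → ¬ x.Prime := by
    intro x h1 h2 hx
    obtain ⟨t, rfl⟩ := Nat.exists_eq_add_of_le (show N.factorial ≤ x by omega)
    have ht2 : 2 ≤ t := by omega
    have htN : t ≤ N := by omega
    have hdvd : t ∣ N.factorial + t :=
      (Nat.dvd_add_left (dvd_refl t)).mpr (Nat.dvd_factorial (by omega) htN)
    have := (Nat.dvd_prime hx).mp hdvd
    have hpos : 0 < N.factorial := Nat.factorial_pos N
    rcases this with h | h <;> omega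
  -- every term from `k0` on stays at most `N! + 1`
  have hstay : ∀ j, k0 ≤ j → q j ≤ N.factorial + 1 := by
    intro j hj
    induction j, hj using Nat.le_induction with
    | base => omega
    | succ j hj ih =>
      have h1 := hb j hj
      by_contra hcon
      push Not at hcon
      exact hcomp (q (j + 1)) (by omega) (by omega) (hp (j + 1))
  have hlarge : N.factorial + 2 ≤ q (k0 + (N.factorial + 2)) := by
    have := hq.id_le (k0 + (N.factorial + 2))
    simp only [id] at this
    omega
  have := hstay (k0 + (N.factorial + 2)) (by omega)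
  omega

/-- In an infinite orbit, every step index `k` (that is `m ≤ k + 1`) has a partner. -/
theorem exists_partner {m : ℕ} {q : ℕ → ℕ} (h : InfiniteOrbit false m q) {k : ℕ}
    (hk : m ≤ k + 1) : ∃ i, i < k ∧ q (k + 1) = q k + q i - 1 := by
  obtain ⟨_, _, _, hstep⟩ := h
  obtain ⟨⟨_, i, hi, hqi⟩, _⟩ := hstep k hk
  exact ⟨i, by simpa [Allowed] using hi, hqi⟩

/-- After a term congruent to `2` modulo `3` there is a later step of length two. -/
theorem exists_twin_step {m : ℕ} {q : ℕ → ℕ} (h : InfiniteOrbit false m q) {k : ℕ}
    (hk : m ≤ k + 1) (h2 : q k % 3 = 2) : ∃ j, k ≤ j ∧ q (j + 1) = q j + 2 := by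
  by_contra hcon
  push Not at hcon
  have hmono : StrictMono q := h.2.1
  have hp : ∀ k, (q k).Prime := h.2.2.1
  -- the class of 2 is never left
  have key : ∀ j, k ≤ j → q j % 3 = 2 := by
    intro j hj
    induction j, hj using Nat.le_induction with
    | base => exact h2
    | succ j hj ih =>
      obtain ⟨i, hi, hqi⟩ := exists_partner h (k := j) (by omega)
      have hi1 := (hp i).two_le
      have hne3 : q i ≠ 3 := by
        intro h3
        exact hcon j hj (by omega)
      have hi0 : q i % 3 ≠ 0 := by
        intro h0
        have := (Nat.dvd_prime (hp i)).mp (Nat.dvd_of_mod_eq_zero h0)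
        omega
      have hj0 : q (j + 1) % 3 ≠ 0 := by
        intro h0
        have h3 := (Nat.dvd_prime (hp (j + 1))).mp (Nat.dvd_of_mod_eq_zero h0)
        have h4 : q i < q j := hmono hi
        omega
      omega
  apply not_bounded_gaps q hmono hp k (q k)
  intro j hj
  obtain ⟨i, hi, hqi⟩ := exists_partner h (k := j) (by omega)
  have hi1 := (hp i).two_le
  have hj2 := key j hj
  have hj2' := key (j + 1) (by omega)
  have hik : i < k := by
    by_contra hge
    push Not at hge
    have := key i hge
    omega
  have := hmono hik
  omega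

end Pool.Agent.UlamPrimes
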